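import Pool.Agent.H316Z.Gam.Ex

set_option autoImplicit false

namespace Pool.Agent.Results.MP_8f98a9_co.ACounter

open H316Z.Gam

/-- A full-dimensional lattice polytope `P ⊆ ℝ^3` with `L(P) ≥ Γ_P + 1` (indeed `Γ_P = 0`, all the
maxima defining `ht` and `ord` being attained and equal) that is not integrally closed. -/
theorem result : ∃ S : Finset (Fin 3 → ℤ),
    (interior (poly S)).Nonempty ∧
    (∀ u ∈ (poly S).extremePoints ℝ, ∀ v ∈ vcone (poly S) u, IsLat v →
      ∃ k : ℝ, IsGreatest (htSet (vcone (poly S) u) v) k ∧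
        IsGreatest (ordSet (vcone (poly S) u) v) k) ∧
    gammaP (poly S) = 0 ∧
    gammaP (poly S) + 1 ≤ (minLen (poly S) : ℝ) ∧
    ¬ IntClosed (poly S) := by
  refine ⟨S0, interior_ne, good_all, gammaP_zero, ?_, not_intClosed⟩
  rw [gammaP_zero, zero_add]
  exact_mod_cast one_le_minLen

end Pool.Agent.Results.MP_8f98a9_co.ACounter
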